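import Pool.Agent.H28.RC.Targets3

/-!
Board rc_modules, part 3, module PRT: transfer between two fields.
-/

set_option autoImplicit false

open NumberField Filter Topology

namespace Pool.Agent.H34.RC

open Pool.Agent.H28.RC

section

variable {F L : Type} [Field F] [NumberField F] [Field L] [NumberField L] [Algebra F L]

/-- the prime below -/
noncomputable def below (Q : PrI L) : PrI F :=
  ⟨Q.1.under (𝓞 F), by
    have := Q.2.1
    exact ⟨inferInstance, Ideal.under_ne_bot (𝓞 F) Q.2.2⟩⟩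

/-- the primes over `P` -/
noncomputable def fibEquiv (P : PrI F) :
    (below (F := F) (L := L) ⁻¹' {P} : Set (PrI L)) ≃ Ideal.primesOver P.1 (𝓞 L) where
  toFun Q := ⟨Q.1.1, Q.1.2.1, ⟨(congrArg Subtype.val (show below Q.1 = P from Q.2)).symm⟩⟩
  invFun Q := ⟨⟨Q.1, Q.2.1, Ideal.ne_bot_of_mem_primesOver P.2.2 Q.2⟩, by
    show below _ = P
    apply Subtype.ext
    exact Q.2.2.over.symm⟩
  left_inv Q := rfl
  right_inv Q := rfl

end

theorem pf_PRT : T_PSU → T_PRT := by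
  intro hPSU F L _ _ _ _ _ w w' B hB h0 hw s hs
  have hsum := hPSU L w' B hB s hs
  have h1 := hsum.hasSum.tsum_fiberwise (below (F := F) (L := L))
  have h2 : PR w' s = ∑' P : PrI F, ∑' Q : (below (F := F) (L := L) ⁻¹' {P} : Set (PrI L)),
      w' Q.1.1 * (Ideal.absNorm Q.1.1 : ℝ) ^ (-s) := h1.tsum_eq.symm
  rw [h2]
  unfold PR
  refine tsum_congr fun P => ?_
  have h3 : ∀ Q : (below (F := F) (L := L) ⁻¹' {P} : Set (PrI L)),
      w' Q.1.1 * (Ideal.absNorm Q.1.1 : ℝ) ^ (-s) =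
        w' (fibEquiv P Q).1 * (Ideal.absNorm P.1 : ℝ) ^ (-s) := by
    intro Q
    have hQ : (Q.1.1).under (𝓞 F) = P.1 := congrArg Subtype.val (show below Q.1 = P from Q.2)
    show w' Q.1.1 * (Ideal.absNorm Q.1.1 : ℝ) ^ (-s) = w' Q.1.1 * (Ideal.absNorm P.1 : ℝ) ^ (-s)
    by_cases hn : Ideal.absNorm Q.1.1 = Ideal.absNorm ((Q.1.1).under (𝓞 F))
    · rw [hn, hQ]
    · rw [h0 Q.1.1 Q.1.2.1 Q.1.2.2 hn, zero_mul, zero_mul]
  rw [tsum_congr h3, (fibEquiv P).tsum_eq (fun Q : Ideal.primesOver P.1 (𝓞 L) =>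
    w' Q.1 * (Ideal.absNorm P.1 : ℝ) ^ (-s)), tsum_mul_right]
  congr 1
  have : P.1.IsMaximal := P.2.1.isMaximal P.2.2
  have hfin : Finite (Ideal.primesOver P.1 (𝓞 L)) :=
    (IsDedekindDomain.primesOver_finite P.1 (𝓞 L)).to_subtype
  rw [← hw P.1 P.2.1 P.2.2, tsum_eq_finsum (Set.toFinite _),
    finsum_set_coe_eq_finsum_mem (Ideal.primesOver P.1 (𝓞 L)) (f := w')]

end Pool.Agent.H34.RC
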